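import Pool.Agent.MP_5d9b3c_ag.P3G.Kit
import Pool.Agent.MP_ee8c61_ag.N3.MkBase

/-! A stable finitely generated algebra that contains the polynomials is a base with fixed
generators. -/

namespace Pool.Agent.MP_5d9b3c_ag.O3R

open Pool.Agent.MP_ee8c61_ag
open M3 (KK Vl)
open N3 P3

variable {N : ℕ} {F : Type} [Field F] [Algebra F ℂ] [Algebra.IsAlgebraic F ℂ] {A : GA F (KK N)}

theorem exists_noether {L : Type} [Field L] [Algebra ℂ L] {A : GA F L}
    (hL : Algebra.trdeg ℂ L = N) (B : Subalgebra ℂ L) (hB : B.FG) (hS : A.Stb B) :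
    ∃ y : Fin N → L, (∀ l, y l ∈ B) ∧ (∀ l, y l ∈ A.fix) ∧ ∀ V : ValuationSubring L,
      (∀ c, algebraMap ℂ L c ∈ V) → (∀ l, y l ∈ V) → ∀ g ∈ B, g ∈ V := by
  obtain ⟨t, t1, rfl⟩ := A.alg_gen hS hB
  let _ : Algebra F L := ((algebraMap ℂ L).comp (algebraMap F ℂ)).toAlgebra
  have : IsScalarTower F ℂ L := IsScalarTower.of_algebraMap_eq fun _ => rfl
  let E : Subalgebra F L := Algebra.adjoin F (t : Set L)
  have : Algebra.FiniteType F E := (Subalgebra.fg_iff_finiteType _).1 ⟨t, rfl⟩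
  obtain ⟨s, φ, g1, g2⟩ := exists_integral_inj_algHom_of_fg F E
  have hs : s ≤ N := by
    have h1 := trdeg_le_of_injective (E.val.comp φ) (Subtype.val_injective.comp g1)
    rw [MvPolynomial.trdeg_of_isDomain, ← trdeg_add_eq F ℂ (A := L), trdeg_eq_zero (R := F), hL]
      at h1
    simpa using h1
  have e1 : ∀ g ∈ E, g ∈ Algebra.adjoin ℂ (t : Set L) ∧ g ∈ A.fix := fun g hg => by
    induction hg using Algebra.adjoin_induction with
    | mem x hx => exact ⟨Algebra.subset_adjoin hx, t1 x hx⟩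
    | algebraMap c => exact ⟨Subalgebra.algebraMap_mem _ (algebraMap F ℂ c), A.alg_fix c⟩
    | add x y _ _ hx hy => exact ⟨add_mem hx.1 hy.1, add_mem hx.2 hy.2⟩
    | mul x y _ _ hx hy => exact ⟨mul_mem hx.1 hy.1, mul_mem hx.2 hy.2⟩
  have e2 : ∀ l : Fin N, (if h : l.1 < s then (φ (MvPolynomial.X ⟨l, h⟩) : L) else 0) ∈ E :=
    fun l => by
      split_ifs
      exacts [Subtype.prop _, zero_mem _]
  refine ⟨fun l => if h : l.1 < s then φ (MvPolynomial.X ⟨l, h⟩) else 0, fun l => (e1 _ (e2 l)).1,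
    fun l => (e1 _ (e2 l)).2, fun V h1 h2 => ?_⟩
  have h3 : ∀ p, (E.val.comp φ).toRingHom p ∈ V.toSubring := fun p => by
    show (E.val.comp φ) p ∈ V
    induction p using MvPolynomial.induction_on with
    | C c => exact (E.val.comp φ).commutes c ▸ h1 (algebraMap F ℂ c)
    | add p q hp hq => rw [map_add]; exact add_mem hp hq
    | mul_X p l hp =>
      rw [map_mul]
      refine mul_mem hp ?_
      simpa using h2 ⟨l, l.2.trans_le hs⟩
  refine fun g hg => Algebra.adjoin_le (S := ⟨V.toSubring.toSubsemiring, h1⟩) (fun g hg => ?_) hg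
  obtain ⟨p, hp, e⟩ := g2 ⟨g, Algebra.subset_adjoin hg⟩
  let ψ : MvPolynomial (Fin s) F →+* V := (E.val.comp φ).toRingHom.codRestrict V.toSubring h3
  obtain ⟨y, hy⟩ := IsIntegrallyClosed.isIntegral_iff.1
    (⟨p.map ψ, hp.map ψ, by
      rw [Polynomial.eval₂_map]
      have := congrArg E.val.toRingHom e
      rw [Polynomial.hom_eval₂, map_zero] at this
      exact this⟩ : IsIntegral V g)
  exact hy ▸ y.2

theorem exists_base (B : Subalgebra ℂ (KK N)) (hB : B.FG) (hp : ∀ p, M3.ip N p ∈ B)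
    (hS : A.Stb B) : ∃ _ : Base, (∀ l, xx N l ∈ B) ∧ (∀ V : Vl N, Ov V ↔ ∀ g ∈ B, g ∈ V) ∧
      ∀ l, xx N l ∈ A.fix := by
  obtain ⟨y, h1, h0, h2⟩ := exists_noether (trdeg_KK N) B hB hS
  let β : Base := ⟨Function.update x0 N y, fun n V a1 a2 p => by
    by_cases e : n = N
    · subst e
      rw [Function.update_self] at a2
      exact h2 V a1 a2 _ (hp p)
    · rw [Function.update_of_ne e] at a2
      induction p using MvPolynomial.induction_on with
      | C c => exact (M3.ip n).commutes c ▸ a1 c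
      | add p q hp hq => rw [map_add]; exact add_mem hp hq
      | mul_X p l hp => rw [map_mul]; exact mul_mem hp (a2 l)⟩
  have e : xx N = y := by
    show Function.update x0 N y N = y
    rw [Function.update_self]
  refine ⟨β, e ▸ h1, fun V => ov_iff.trans ?_, e ▸ h0⟩
  rw [e]
  exact ⟨fun h => h2 V h.1 h.2, fun h => ⟨fun c => h _ (B.algebraMap_mem c), fun l => h _ (h1 l)⟩⟩

end Pool.Agent.MP_5d9b3c_ag.O3R
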