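import Pool.Agent.MP_5d9b3c_ag.O3R.Base
import Pool.Agent.MP_5d9b3c_ag.O3R.MkB
import Pool.Agent.MP_5d9b3c_ag.O3.Defs

/-! Stable models over a base: the statements that are used by the final argument. -/

namespace Pool.Agent.MP_ee8c61_ag.N3.P3R

open Pool.Agent.MP_ee8c61_ag.M3 Pool.Agent.MP_5d9b3c_ag P3 P3T O3R

theorem sBaseG : SBaseG := by
  intro F _ _ _ s hs h1 hp
  obtain ⟨y, a1, a0, a2⟩ := O3R.exists_noether (A := gaK F 3) (trdeg_KK 3) (Algebra.adjoin ℂ s)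
    (Subalgebra.fg_def.2 ⟨s, hs, rfl⟩) (GA.stb_of_fix h1).adjoin
  let β : Base := ⟨Function.update x0 3 y, fun n V b1 b2 p => by
    by_cases e : n = 3
    · subst e
      rw [Function.update_self] at b2
      exact a2 V b1 b2 _ (hp p)
    · rw [Function.update_of_ne e] at b2
      induction p using MvPolynomial.induction_on with
      | C c => exact (M3.ip n).commutes c ▸ b1 c
      | add p q hp hq => rw [map_add]; exact add_mem hp hq
      | mul_X p l hp => rw [map_mul]; exact mul_mem hp (b2 l)⟩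
  have e : xx 3 = y := by
    show Function.update x0 3 y 3 = y
    rw [Function.update_self]
  refine ⟨β, ⟨fun n l => ?_⟩, e ▸ a1, fun V => ov_iff.trans ?_⟩
  · by_cases k : n = 3
    · subst k
      exact e ▸ a0 l
    · show Function.update x0 3 y n l ∈ _
      rw [Function.update_of_ne k]
      exact x0_fix l
  · rw [e]
    exact ⟨fun h => a2 V h.1 h.2,
      fun h => ⟨fun c => h _ (Subalgebra.algebraMap_mem _ c), fun l => h _ (a1 l)⟩⟩

variable [Base] {N : ℕ} {F : Type} [Field F] [Algebra F ℂ] {f : Po N}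
  {W : Set (Subalgebra ℂ (KK N))} {M : Mod N}

theorem stM_iff : StM F f W M ↔ StB (gaK F N) f W M :=
  ⟨fun h => ⟨h.ok, h.fg, h.stb, h.pts, h.perm, h.sep, h.amp⟩,
    fun h => ⟨h.ok, h.fg, h.stb, h.pts, h.perm, h.sep, h.amp⟩⟩

theorem sb1R : SB1R := fun _ _ _ _ _ _ _ G hf h1 h2 h3 =>
  let ⟨W, M, a1, a2⟩ := O3R.sb1R P3T.xx_fix N3.xx_fix G hf h1 h2 h3
  ⟨W, M, stM_iff.2 a1, a2⟩

theorem sb1G' : SB1G := fun _ _ _ _ _ _ _ _ _ κ _ G h1 h2 h3 h4 =>
  let ⟨W, M, a1, a2⟩ := O3R.sb1G P3T.xx_fix N3.xx_fix κ G h1 (stM_iff.1 h2) h3 h4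
  ⟨W, M, stM_iff.2 a1, a2⟩

end Pool.Agent.MP_ee8c61_ag.N3.P3R
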