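import Pool.Agent.MP_5d9b3c_ag.O3R.Rel
import Pool.Agent.MP_ee8c61_ag.N3E.Final
import Pool.Agent.MP_ee8c61_ag.N3.Defs

/-! Stable models over a base that is fixed by the group. -/

namespace Pool.Agent.MP_5d9b3c_ag.O3R

open Pool.Agent.MP_ee8c61_ag
open M3 (KK Vl Un)
open N3 N3.M3E Finset P3 P3T
open Pool.Agent.MP_96693b_ag.RS (Loc LocOf)

variable [Base] {N : ℕ} {F : Type} [Field F] [Algebra F ℂ] {A : GA F (KK N)} {f : Po N}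

theorem ov_vs (hb : ∀ l, xx N l ∈ A.fix) (σ : Gm F) {V : Vl N} (h : Ov V) :
    Ov ((A.si σ).vs V) := by
  obtain ⟨h1, h2⟩ := ov_iff.1 h
  refine ov_iff.2 ⟨fun c => ?_, fun l => ?_⟩
  · rw [SI.mem_vs, (A.si σ).symm.map]
    exact h1 _
  · rw [← hb l σ]
    exact (A.si σ).e_mem_vs.2 (h2 l)

theorem ov_vs_iff (hb : ∀ l, xx N l ∈ A.fix) (σ : Gm F) {V : Vl N} :
    Ov ((A.si σ).vs V) ↔ Ov V :=
  ⟨fun h => by simpa [A.si_inv] using ov_vs hb σ⁻¹ h, ov_vs hb σ⟩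

/-- The base ring is stable. -/
theorem stb_Rb (hb : ∀ l, xx N l ∈ A.fix) : A.Stb (Rb N) := fun σ g hg =>
  mem_Rb.2 fun V hV => by
    have := mem_Rb.1 hg _ (ov_vs hb σ⁻¹ hV)
    rwa [SI.mem_vs, ← A.si_inv, inv_inv] at this

/-- The sections of an invariant divisor are stable. -/
theorem stb_H {M : Mod N} (hb : ∀ l, xx N l ∈ A.fix) (hf : ip N f ∈ A.fix) (hM : M.OK f)
    (h : ∀ σ j, ∃ j', M.v j' = (A.si σ).dv (M.v j)) {c : M.J → ℤ}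
    (hc : ∀ σ j j', M.v j' = (A.si σ).dv (M.v j) → c j' = c j) : A.Stb (M.H c) := by
  intro σ g hg
  obtain ⟨⟨r, p, e⟩, h2⟩ := (eout.h N f M hM c g).1 hg
  refine (eout.h N f M hM c _).2 ⟨⟨r, ⟨_, stb_Rb hb σ _ p.2⟩, ?_⟩, fun j => ?_⟩
  · show _ = A.ρ σ (ip N p)
    rw [← e, map_mul, map_pow, hf σ]
  · obtain ⟨j', hj⟩ := h σ⁻¹ j
    have h3 := h2 j'
    rw [hc _ _ _ hj, hj, SI.mem_F, ← A.si_inv, inv_inv] at h3
    exact h3

/-- The model `M` of `f` is stable, and its points are the points of the stable algebras in `U`. -/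
structure StB (A : GA F (KK N)) (f : Po N) (U : Set (Subalgebra ℂ (KK N))) (M : Mod N) : Prop where
  ok : M.OK f
  fg : ∀ B ∈ U, B.FG
  stb : ∀ B ∈ U, A.Stb B
  pts : ∀ Q, Q ∈ M.pts ↔ ∃ B ∈ U, LocOf B Q
  perm : ∀ (σ : Gm F) j, ∃ j', M.v j' = (A.si σ).dv (M.v j)
  sep : ∀ Q ∈ M.pts, A.FixL Q → ∀ j, M.On Q j → A.InvO (M.v j)
  amp : ∃ w, M.Amp w ∧ ∀ (σ : Gm F) j j', M.v j' = (A.si σ).dv (M.v j) → w j' = w j

variable [Algebra.IsAlgebraic F ℂ]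

/-- The denominator can be chosen fixed. -/
theorem gd_fix (hA : ∀ l, M3.xx N l ∈ A.fix) (hb : ∀ l, xx N l ∈ A.fix) (hfs : ip N f ∈ A.fix)
    (hf : Gd f) : ∃ q : M3.Po N, q ≠ 0 ∧ M3.ip N q ∈ A.fix ∧
      (∀ l, ∃ (n : ℕ) (p : M3.Po N), M3.ip N q ^ n * xx N l = M3.ip N p) ∧
      ∃ n : ℕ, ip N f ^ n / M3.ip N q ∈ Rb N := by
  obtain ⟨-, q, hq, hx, n, p, e⟩ := hf
  have hs : A.Stb (M3.ip N).range := fun σ _ hs => (SI.mem_ip (s := A.si σ) fun l => hA l σ).2 hs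
  let U : Submonoid (KK N) :=
    { carrier := {s | s ∈ (M3.ip N).range ∧ s ≠ 0 ∧
        (∀ l, ∃ n : ℕ, s ^ n * xx N l ∈ (M3.ip N).range ∨ s = 1) ∧ ∃ n : ℕ, ip N f ^ n / s ∈ Rb N}
      one_mem' := ⟨one_mem _, one_ne_zero, fun _ => ⟨0, Or.inr rfl⟩, 0, by simp [one_mem]⟩
      mul_mem' := fun {a b} ⟨a1, a2, a3, m, a4⟩ ⟨b1, b2, b3, k, b4⟩ =>
        ⟨mul_mem a1 b1, mul_ne_zero a2 b2, fun l => by
          obtain ⟨i, h | rfl⟩ := a3 l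
          · exact ⟨i, Or.inl (by
              rw [mul_pow, mul_right_comm]; exact mul_mem h (pow_mem b1 i))⟩
          · rw [one_mul]
            exact b3 l, m + k, by
          rw [pow_add, ← div_mul_div_comm]
          exact mul_mem a4 b4⟩ }
  have q0 := M3B1.ip_ne hq
  have hU : M3.ip N q ∈ U := ⟨⟨q, rfl⟩, q0, fun l => let ⟨n, p, e⟩ := hx l
    ⟨n, Or.inl ⟨p, e.symm⟩⟩, n, by
      rw [← map_pow, e, map_mul, ip_pp, mul_div_cancel_right₀ _ q0]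
      exact p.2⟩
  obtain ⟨t, ⟨⟨t, rfl⟩, t0, -, k, t1⟩, h2⟩ := A.exists_mul (U := U)
    (fun σ s ⟨a1, a2, a3, m, a4⟩ => ⟨hs σ s a1, (map_ne_zero _).2 a2, fun l => by
      obtain ⟨i, h | rfl⟩ := a3 l
      · refine ⟨i, Or.inl ?_⟩
        have := hs σ _ h
        rwa [map_mul, map_pow, hb l σ] at this
      · exact ⟨i, Or.inr (map_one _)⟩, m, by
      have := stb_Rb hb σ _ a4
      rwa [map_div₀, map_pow, hfs σ] at this⟩) hU
  obtain ⟨-, -, -, m, a4⟩ := hU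
  refine ⟨q * t, fun z => mul_ne_zero q0 t0 ((map_mul (M3.ip N) q t).symm.trans
    (by rw [z, map_zero])), map_mul (M3.ip N) q t ▸ h2, fun l => ?_, m + k, ?_⟩
  · obtain ⟨i, r, h⟩ := hx l
    exact ⟨i, t ^ i * r, by rw [map_mul, map_mul, map_pow, ← h]; ring⟩
  · rw [map_mul, pow_add, ← div_mul_div_comm]
    exact mul_mem a4 t1

theorem manyB (hA : ∀ l, M3.xx N l ∈ A.fix) (hb : ∀ l, xx N l ∈ A.fix) (hfs : ip N f ∈ A.fix)
    (hf : Gd f) (κ : Type) [Fintype κ] (T : κ → Finset (KK N))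
    (h1 : ∀ i, ∀ g ∈ T i, ∃ (r : ℕ) (p : Po N), ip N f ^ r * g = ip N p)
    (h2 : ∀ i, ∃ r : ℕ, ip N f ^ r ∈ T i) (hTs : ∀ i, A.Stb (T i)) :
    ∃ U W, StB A f U W ∧ ∀ i, ∃ c, W.Gens c (T i) := by
  obtain ⟨q, q0, q1, q2, n, q3⟩ := gd_fix hA hb hfs hf
  obtain ⟨W, hW, ⟨U, hU⟩, h⟩ := relG hA (xx N) hb Ov
    (fun V => ⟨fun h => ⟨h.pol, (ov_iff.1 h).2⟩,
      fun h => ov_iff.2 ⟨fun c => (M3.ip N).commutes c ▸ h.1 _, h.2⟩⟩) (ip N f) hfs κ T q q0 q1 q2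
    (fun k => hf.1 (Subtype.ext k)) ⟨n, mem_Rb.1 q3⟩
    (fun i g hg => let ⟨r, p, e⟩ := h1 i g hg; ⟨r, fun V hV => e ▸ hV p⟩) (fun V hV => hV f) h2 hTs
  obtain ⟨w, κ, i, b, t, ρ, ⟨a1, a2, a3, a4, a5⟩, a6⟩ := hU.amp
  exact ⟨U, B1.cv W, ⟨B1.ok_of hW hf, hU.fg, hU.stb, hU.pts, hU.perm, hU.sep,
    w, ⟨κ, i, b, t, ρ, a1, a2, a3, a4, a5⟩, a6⟩, h⟩

theorem b1W (hA : ∀ l, M3.xx N l ∈ A.fix) (hb : ∀ l, xx N l ∈ A.fix) (hfs : ip N f ∈ A.fix)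
    {M : Mod N} (hOK : M.OK f) (hP : ∀ σ j, ∃ j', M.v j' = (A.si σ).dv (M.v j))
    (hS : ∃ w, M.Amp w ∧ ∀ σ j j', M.v j' = (A.si σ).dv (M.v j) → w j' = w j)
    (κ : Type) [Fintype κ] (T : κ → Finset (KK N))
    (h1 : ∀ i, ∀ g ∈ T i, ∃ (r : ℕ) (p : Po N), ip N f ^ r * g = ip N p)
    (h2 : ∀ i, ∃ r : ℕ, ip N f ^ r ∈ T i) (hTs : ∀ i, A.Stb (T i)) :
    ∃ U W, StB A f U W ∧ Nonempty (Dom W M) ∧ ∀ i, ∃ c, W.Gens c (T i) := by
  classical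
  have hB := eout.bas
  have hH := eout.h
  have B := hB N f M hOK
  obtain ⟨w, ⟨κ₀, _, b, t, ρ, hC⟩, hw⟩ := hS
  obtain ⟨s, hs⟩ := B.f_pow w
  have hs' := (hs s le_rfl).1
  obtain ⟨T0, t1, t2, t3⟩ := A.hull (insert (ip N f ^ s) (univ.image ρ))
  have t4 : ∀ g ∈ T0, g ∈ M.H w := fun g hg => by
    obtain ⟨σ, y, hy, rfl⟩ := t3 g hg
    refine stb_H hb hfs hOK hP hw σ y ?_
    rcases mem_insert.1 hy with rfl | hy
    · exact hs'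
    · obtain ⟨i, -, rfl⟩ := mem_image.1 hy
      exact hC.sec i
  obtain ⟨U, W, hS', h⟩ := manyB hA hb hfs hOK.gd (Option κ)
    (fun o => o.elim T0 T) (fun o g hg => by
      cases o with
      | none => exact ((hH N f M hOK _ _).1 (t4 g hg)).1
      | some i => exact h1 i g hg)
    (fun o => by
      cases o with
      | none => exact ⟨s, t1 (mem_insert_self _ _)⟩
      | some i => exact h2 i) fun o => by
      cases o with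
      | none => exact t2
      | some i => exact hTs i
  have hW := hS'.ok
  obtain ⟨c, a1, a2⟩ := h none
  have a3 : ∀ i, ρ i ∈ W.H c := fun i =>
    a1 _ (t1 (mem_insert_of_mem (mem_image_of_mem _ (mem_univ i))))
  refine ⟨U, W, hS', eout.mk2 N f W M hW hOK
    (eout.mk1 N f W M hW hOK κ₀ w b t ρ c hC a3 fun V hV => ?_), fun i => h (some i)⟩
  obtain ⟨g, hg, a4⟩ := a2 V hV
  obtain ⟨i, hi⟩ := hC.cov V hV
  have b1 := (B.oc_div V w _ _ hV hi).1 (t4 g hg V hV)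
  have b2 := ((hB N f W hW).oc_div V c _ _ hV a4).1 (a3 i V hV)
  obtain ⟨a, ha⟩ := hOK.cov V hV
  have b3 : ρ i ≠ 0 := left_ne_zero_of_mul (hi a ha).1
  refine ⟨i, fun a' ha' => ?_⟩
  have b4 : g ≠ 0 := left_ne_zero_of_mul (a4 a' ha').1
  have : ρ i * W.mon a' c = ρ i / g * (g * W.mon a' c) := by field_simp
  rw [this]
  exact M3.Un.mul ⟨div_ne_zero b3 b4, b2, by rwa [inv_div]⟩ (a4 a' ha')

/-- Principalisation of finitely many stable linear systems on a stable dominating model. -/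
theorem b1G (hA : ∀ l, M3.xx N l ∈ A.fix) (hb : ∀ l, xx N l ∈ A.fix) (hfs : ip N f ∈ A.fix)
    {U : Set (Subalgebra ℂ (KK N))} {M : Mod N} (hS : StB A f U M) (κ : Type) [Fintype κ]
    (T : κ → Finset (KK N)) (h1 : ∀ i, ∃ c, ∀ g ∈ T i, g ∈ M.H c)
    (h2 : ∀ i, ∃ r : ℕ, ip N f ^ r ∈ T i) (hTs : ∀ i, A.Stb (T i)) :
    ∃ U' W, StB A f U' W ∧ Nonempty (Dom W M) ∧ ∀ i, ∃ c, W.Gens c (T i) :=
  b1W hA hb hfs hS.ok hS.perm hS.amp κ T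
    (fun i g hg => let ⟨c, hc⟩ := h1 i; ((eout.h N f M hS.ok _ _).1 (hc g hg)).1) h2 hTs

theorem stb_img {G : Finset (Po N)} (h : ∀ g ∈ G, ip N g ∈ A.fix) {T : Finset (KK N)}
    (hT : (T : Set (KK N)) = ip N '' G) : A.Stb T :=
  GA.stb_of_fix (by
    rw [hT]
    rintro _ ⟨g, hg, rfl⟩
    exact h g hg)

/-- Stable models that principalise a finite set of fixed functions. -/
theorem sb1R (hA : ∀ l, M3.xx N l ∈ A.fix) (hb : ∀ l, xx N l ∈ A.fix) (G : Finset (Po N))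
    (hf : Gd f) (h1 : ip N f ∈ A.fix) (h2 : ∀ g ∈ G, ip N g ∈ A.fix) (h3 : ∃ r, f ^ r ∈ G) :
    ∃ U M, StB A f U M ∧ ∃ c, ∀ T : Finset (KK N), (T : Set (KK N)) = ip N '' G → M.Gens c T := by
  classical
  obtain ⟨r, hr⟩ := h3
  obtain ⟨U, M, a1, a2⟩ := manyB hA hb h1 hf Unit (fun _ => G.image (ip N)) (fun _ g hg => by
      obtain ⟨p, -, rfl⟩ := mem_image.1 hg
      exact ⟨0, p, by simp⟩) (fun _ => ⟨r, mem_image.2 ⟨_, hr, map_pow _ _ _⟩⟩)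
    fun _ => stb_img h2 coe_image
  obtain ⟨c, hc⟩ := a2 ()
  exact ⟨U, M, a1, c, fun T hT => by rwa [coe_injective (hT.trans coe_image.symm)]⟩

/-- Stable dominating models that principalise finitely many finite sets of fixed functions. -/
theorem sb1G (hA : ∀ l, M3.xx N l ∈ A.fix) (hb : ∀ l, xx N l ∈ A.fix)
    {U : Set (Subalgebra ℂ (KK N))} {M : Mod N} (κ : Type) [Fintype κ] (G : κ → Finset (Po N))
    (h1 : ip N f ∈ A.fix) (h2 : StB A f U M) (h3 : ∀ i, ∀ g ∈ G i, ip N g ∈ A.fix)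
    (h4 : ∀ i, ∃ r, f ^ r ∈ G i) : ∃ U' M', StB A f U' M' ∧ Nonempty (Dom M' M) ∧
      ∀ i, ∃ c, ∀ T : Finset (KK N), (T : Set (KK N)) = ip N '' G i → M'.Gens c T := by
  classical
  obtain ⟨U', M', a1, a4, a5⟩ := b1W hA hb h1 h2.ok h2.perm h2.amp κ
    (fun i => (G i).image (ip N)) (fun i g hg => by
      obtain ⟨p, -, rfl⟩ := mem_image.1 hg
      exact ⟨0, p, by simp⟩) (fun i => by
      obtain ⟨r, hr⟩ := h4 i
      exact ⟨r, mem_image.2 ⟨_, hr, map_pow _ _ _⟩⟩) fun i => stb_img (h3 i) coe_image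
  refine ⟨U', M', a1, a4, fun i => ?_⟩
  obtain ⟨c, hc⟩ := a5 i
  exact ⟨c, fun T hT => by rwa [coe_injective (hT.trans coe_image.symm)]⟩

end Pool.Agent.MP_5d9b3c_ag.O3R
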