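import Pool.Agent.MP_5d9b3c_ag.P3R.B1
import Pool.Agent.MP_ee8c61_ag.N3B1.Rel

/-! Stable projective log resolutions over an affine modification of affine space. -/

namespace Pool.Agent.MP_5d9b3c_ag.O3R

open Pool.Agent.MP_ee8c61_ag
open H59 M3 M3E Finset P3 P3T P3R N3B1
open M3L (aw le_aw inv_mem_aw mem_aw aw_le)
open Pool.Agent.MP_96693b_ag.RS (Loc LocOf exists_locOf_le)

variable {N : ℕ} {F : Type} [Field F] [Algebra F ℂ] {A : GA F (KK N)}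

theorem locOf_aw {B : Subalgebra ℂ (KK N)} {t : KK N} (ht : t ∈ B) (h0 : t ≠ 0)
    {Q : Loc (KK N)} : LocOf (aw B t) Q ↔ LocOf B Q ∧ Q.ev t ≠ 0 := by
  refine ⟨fun h => ?_, fun h => locOf_of h.1 (aw_le h.1.le (Q.inv_mem _ (h.1.le ht) h.2))
    fun y hy => ⟨1, one_mem _, by rw [Loc.ev_one]; exact one_ne_zero, by
      rw [one_mul]; exact le_aw hy⟩⟩
  have h1 := ev_ne_of_inv h0 (h.le (le_aw ht)) (h.le inv_mem_aw)
  refine ⟨locOf_of h (le_aw.trans h.le) fun y hy => ?_, h1⟩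
  obtain ⟨e, he⟩ := (mem_aw ht h0).1 hy
  exact ⟨t ^ e, pow_mem ht e, by
    rw [Loc.ev_pow (h.le (le_aw ht))]; exact pow_ne_zero _ h1, he⟩

/-- The model over the valuation rings with property `P` is stable under the group. -/
structure StR (A : GA F (KK N)) (P : Vl N → Prop) (U : Set (Subalgebra ℂ (KK N))) (W : Mod N) :
    Prop where
  fg : ∀ B ∈ U, B.FG
  stb : ∀ B ∈ U, A.Stb B
  pts : ∀ Q, Q ∈ W.pts ↔ ∃ B ∈ U, LocOf B Q
  perm : ∀ (σ : Gm F) j, ∃ j', W.v j' = (A.si σ).dv (W.v j)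
  sep : ∀ Q ∈ W.pts, A.FixL Q → ∀ j, W.On Q j → A.InvO (W.v j)
  amp : ∃ (w : W.J → ℤ) (κ : Type) (_ : Fintype κ) (b : κ → W.ι) (t ρ : κ → KK N),
    ((∀ i, t i ∈ W.S.A (b i)) ∧ (∀ i, t i ≠ 0) ∧ (∀ i V, P V → W.Oc V w (ρ i)) ∧
      (∀ V, P V → ∃ i, W.Gen V w (ρ i)) ∧
      ∀ i V, P V → (W.Gen V w (ρ i) ↔ W.In (b i) V ∧ (t i)⁻¹ ∈ V)) ∧
    ∀ (σ : Gm F) j j', W.v j' = (A.si σ).dv (W.v j) → w j' = w j

theorem stR_res {ι : Type} [Finite ι] {x : ι → KK N} (hxs : ∀ l, x l ∈ A.fix)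
    (hA : ∀ l, xx N l ∈ A.fix) {h : Po N} {W : Mod N} (hW : W.OK h) (hS : SB A h W)
    {c : W.J → ℤ} (hc : ∀ b, 1 * W.mon b c ∈ W.S.A b) (hx : ∀ l b, x l * W.mon b c ∈ W.S.A b)
    (hP : ∀ V, Ov V → (∀ l, x l ∈ V) → W.Gen V c 1) (Φ : KK N) :
    ∃ U, StR A (fun V => Ov V ∧ W.Gen V c 1) U (res W c 1 hc one_ne_zero Φ) := by
  obtain ⟨hS, W0, hB⟩ := hS
  have B := eout.bas N h W hW
  have t0 := fun b => mul_ne_zero one_ne_zero (W.mon_ne b c)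
  have k1 : ∀ (Q : Loc (KK N)) b, W.S.A b ≤ Q.O → (∀ l, x l ∈ Q.O) →
      Q.ev (1 * W.mon b c) ≠ 0 := fun Q b h1 h2 => by
    obtain ⟨V, a1, a2⟩ := exists_dom Q
    have hb : W.In b V := fun g hg => a1 g (h1 hg)
    exact a2 _ (h1 (hc b)) (hP V (B.ov b V hb) (fun l => a1 _ (h2 l)) b hb)
  have k2 : ∀ (Q : Loc (KK N)) b, W.S.A b ≤ Q.O → Q.ev (1 * W.mon b c) ≠ 0 →
      ∀ l, x l ∈ Q.O := fun Q b h1 h2 l => by
    have := Loc.div_mem (h1 (hx l b)) (h1 (hc b)) h2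
    rwa [mul_div_mul_right _ _ (W.mon_ne b c), div_one] at this
  have k3 : ∀ Q, Q ∈ (res W c 1 hc one_ne_zero Φ).pts ↔ Q ∈ W.pts ∧ ∀ l, x l ∈ Q.O := fun Q =>
    ⟨fun ⟨b, hb⟩ => have := (locOf_aw (hc b) (t0 b)).1 hb
      ⟨⟨b, this.1⟩, k2 Q b this.1.le this.2⟩,
      fun ⟨⟨b, hb⟩, h2⟩ => ⟨b, (locOf_aw (hc b) (t0 b)).2 ⟨hb, k1 Q b hb.le h2⟩⟩⟩
  have k4 : ∀ j, (W.v j).v 1 = -c j ↔ ∀ l, x l ∈ (W.v j).F 0 := fun j => by
    refine ⟨fun e l => ?_, fun e => ((B.gen_v j c 1).1 (hP _ (B.ov_v j) e)).2⟩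
    obtain ⟨b, hb⟩ := hW.cov _ (B.ov_v j)
    exact (Un.mem_iff (one_mul (W.mon b c) ▸ (B.gen_v j c 1).2 ⟨one_ne_zero, e⟩ b hb)).1
      (hb _ (hx l b))
  let E : Subalgebra ℂ (KK N) := Algebra.adjoin ℂ (Set.range x)
  have hE : ∀ {D : Subalgebra ℂ (KK N)}, E ≤ D ↔ ∀ l, x l ∈ D :=
    Algebra.adjoin_le_iff.trans Set.range_subset_iff
  refine ⟨(fun w => M3B1.ch W0 w ⊔ E) '' W0, ?_, ?_, fun Q => ?_, fun σ j => ?_,
    fun Q hQ hF j hj => GA.invO_iff.2 fun σ => ?_, ?_⟩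
  · rintro _ ⟨w, -, rfl⟩
    exact (M3B1.ch_fg hB.good.fin).sup (Subalgebra.fg_def.2 ⟨_, Set.finite_range x, rfl⟩)
  · rintro _ ⟨w, hw, rfl⟩
    have : M3B1.ch W0 w ⊔ E = Algebra.adjoin ℂ ((M3B1.ch W0 w : Set (KK N)) ∪ Set.range x) := by
      rw [Algebra.adjoin_union, Algebra.adjoin_eq]
    dsimp only
    rw [this]
    refine GA.Stb.adjoin ?_
    rintro σ _ (hg | ⟨l, rfl⟩)
    · exact Or.inl (ch_stb hA hB.fix hw σ _ hg)
    · exact Or.inr ⟨l, (hxs l σ).symm⟩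
  · rw [k3, hB.pts]
    constructor
    · rintro ⟨⟨w, hw, h1⟩, h2⟩
      exact ⟨_, ⟨w, hw, rfl⟩, locOf_of h1 (sup_le h1.le (hE.2 h2)) fun y hy =>
        ⟨1, one_mem _, by rw [Loc.ev_one]; exact one_ne_zero, by
          rw [one_mul]; exact (le_sup_left : _ ≤ M3B1.ch W0 w ⊔ E) hy⟩⟩
    · rintro ⟨_, ⟨w, hw, rfl⟩, h1⟩
      have h2 := hE.1 (le_sup_right.trans h1.le)
      obtain ⟨Q', a1, a2⟩ := exists_locOf_le (M3B1.ch_fg (w := w) hB.good.fin)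
        (le_sup_left.trans h1.le)
      obtain ⟨b, hb⟩ : Q' ∈ W.pts := hB.pts ▸ ⟨w, hw, a1⟩
      have a3 := k2 Q' b hb.le (by
        rw [← Loc.ev_eq_of_le a2 (hb.le (hc b))]
        exact k1 Q b (hb.le.trans a2) h2)
      have a4 : M3B1.ch W0 w ⊔ E ≤ Q'.O := sup_le a1.le (hE.2 a3)
      obtain rfl : Q' = Q := Loc.ext' (le_antisymm a2 fun g hg => by
        obtain ⟨p, hp, q, hq, e1, e2⟩ := h1.frac g hg
        rw [eq_div_of_mul_eq (Loc.ne_zero_of_ev e1) e2]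
        exact Loc.div_mem (a4 hp) (a4 hq) (by rwa [← Loc.ev_eq_of_le a2 (a4 hq)]))
      exact ⟨⟨w, hw, a1⟩, h2⟩
  · obtain ⟨j', e⟩ := hS.perm σ j.1
    refine ⟨⟨j', (k4 j').2 fun l => ?_⟩, e⟩
    rw [e, ← hxs l σ]
    exact (A.si σ).e_mem_F.2 ((k4 _).1 j.2 l)
  · obtain ⟨j', e⟩ := hS.perm σ j.1
    have := hS.sep σ j.1 j' e Q ((k3 Q).1 hQ).1 hj fun g hg => by
      rw [e, SI.mem_F]
      exact hj _ ((SI.mem_sa _).1 (by rw [← SI.loc_O, hF σ]; exact hg))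
    exact e.symm.trans (congrArg W.v this)
  · obtain ⟨w, ⟨κ, _, b, t, ρ, hA⟩, hw⟩ := hS.amp
    refine ⟨fun j => w j.1, κ, inferInstance, b, t, ρ, ⟨fun i => le_aw (hA.mem i), hA.ne,
      fun i V hV => oc_of B (hA.sec i V hV.1),
      fun V hV => (hA.cov V hV.1).imp fun i k => (gen_iff B hV.2 _ _).2 k, fun i V hV => ?_⟩,
      fun σ j j' e => hw σ _ _ e⟩
    rw [gen_iff B hV.2, hA.gen i V hV.1, in_iff B, and_iff_left hV.2]

variable [Algebra.IsAlgebraic F ℂ]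

theorem relG (hA : ∀ l, xx N l ∈ A.fix) {ι : Type} [Fintype ι] (x : ι → KK N)
    (hxs : ∀ l, x l ∈ A.fix) (P : Vl N → Prop) (hP : ∀ V, P V ↔ Ov V ∧ ∀ l, x l ∈ V)
    (Φ : KK N) (hΦ : Φ ∈ A.fix) (κ : Type) [Fintype κ] (T : κ → Finset (KK N)) (q : Po N)
    (hq : q ≠ 0) (hqs : ip N q ∈ A.fix)
    (hx : ∀ l, ∃ (n : ℕ) (p : Po N), ip N q ^ n * x l = ip N p) (F0 : Φ ≠ 0)
    (hn : ∃ n : ℕ, ∀ V, P V → Φ ^ n / ip N q ∈ V)
    (hG : ∀ i, ∀ g ∈ T i, ∃ k : ℕ, ∀ V, P V → Φ ^ k * g ∈ V) (hF : ∀ V, P V → Φ ∈ V)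
    (hr : ∀ i, ∃ r : ℕ, Φ ^ r ∈ T i) (hT : ∀ i, A.Stb (T i)) :
    ∃ W : Mod N, OKr W P Φ ∧ (∃ U, StR A P U W) ∧ ∀ i, ∃ c,
      (∀ g ∈ T i, ∀ V, P V → W.Oc V c g) ∧ ∀ V, P V → ∃ g ∈ T i, W.Gen V c g := by
  classical
  have q0 : ip N q ≠ 0 := M3B1.ip_ne hq
  have dn : ∀ g, (∀ V, P V → g ∈ V) → ∃ (n : ℕ) (p : Po N), ip N q ^ n * g = ip N p :=
    fun g hg => den q0 fun V h1 h2 => hg V ((hP V).2 ⟨h1, fun l => by
      obtain ⟨n, p, e⟩ := hx l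
      have := mul_mem (pow_mem h2 n) (h1 p)
      rwa [← e, inv_pow, inv_mul_cancel_left₀ (pow_ne_zero _ q0)] at this⟩)
  obtain ⟨m, F₀, hm⟩ := dn Φ hF
  choose r hr using hr
  obtain ⟨n, hn⟩ := hn
  have eh : ip N (q * F₀) = ip N q ^ (m + 1) * Φ := by rw [map_mul, ← hm]; ring
  have h0 : q * F₀ ≠ 0 := fun e => mul_ne_zero (pow_ne_zero _ q0) F0 (by rw [← eh, e, map_zero])
  have dn' : ∀ g (k s : ℕ), (∀ V, P V → Φ ^ k * g ∈ V) →
      ∃ (n : ℕ) (p : Po N), ip N (q * F₀) ^ n * (ip N q ^ s * g) = ip N p := fun g k s hg => by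
    obtain ⟨a, p, e⟩ := dn _ hg
    refine ⟨k + a, F₀ ^ a * q ^ ((m + 1) * k + s) * p, ?_⟩
    rw [pow_add, map_mul (ip N) (_ * _), ← e]
    nth_rewrite 1 [eh]
    simp only [map_mul, map_pow]
    ring
  obtain ⟨W, hW, hS, hT⟩ := manyG hA (eh ▸ mul_mem (pow_mem hqs _) hΦ) h0 (Option κ)
    (fun o => o.elim (insert 1 (univ.image x))
      fun i => (T i).image (ip N q ^ ((m + 1) * r i) * ·))
    (fun o g hg => by
      cases o with
      | none =>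
        have := dn' g 0 0 fun V hV => by
          rw [pow_zero, one_mul]
          rcases mem_insert.1 hg with rfl | hg
          · exact one_mem _
          · obtain ⟨l, -, rfl⟩ := mem_image.1 hg
            exact ((hP V).1 hV).2 l
        rwa [pow_zero, one_mul] at this
      | some i =>
        obtain ⟨g', hg', rfl⟩ := mem_image.1 hg
        obtain ⟨k, hk⟩ := hG i g' hg'
        exact dn' g' k _ hk)
    (fun o => by
      cases o with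
      | none => exact ⟨0, mem_insert.2 (Or.inl (pow_zero _))⟩
      | some i => exact ⟨r i, mem_image.2 ⟨_, hr i, by rw [eh, mul_pow, ← pow_mul]⟩⟩)
    fun o => by
      cases o with
      | none =>
        refine GA.stb_of_fix fun g hg => ?_
        rcases mem_insert.1 (mem_coe.1 hg) with rfl | hg
        · exact one_mem _
        · obtain ⟨l, -, rfl⟩ := mem_image.1 hg
          exact hxs l
      | some i =>
        intro σ g hg
        obtain ⟨g', hg', rfl⟩ := mem_image.1 (mem_coe.1 hg)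
        refine mem_coe.2 (mem_image.2 ⟨_, mem_coe.1 (hT i σ g' (mem_coe.2 hg')), ?_⟩)
        rw [map_mul, map_pow, hqs σ]
  have B := eout.bas N _ W hW
  have nb := eout.nb N _ W hW
  obtain ⟨c, a1, a2⟩ := hT none
  have hc := (nb.H c 1).1 (a1 1 (mem_insert_self _ _))
  have hc' := fun l => (nb.H c (x l)).1 (a1 _ (mem_insert_of_mem (mem_image_of_mem x (mem_univ l))))
  have g1 : ∀ V, Ov V → (∀ l, x l ∈ V) → W.Gen V c 1 := fun V hV k b hb => by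
    obtain ⟨g, hg, u⟩ := a2 V hV
    rw [one_mul]
    refine Un.of_mul (mul_comm g _ ▸ u b hb) (one_mul (W.mon b c) ▸ hb _ (hc b)) ?_
    rcases mem_insert.1 hg with rfl | hg
    · exact one_mem _
    · obtain ⟨l, -, rfl⟩ := mem_image.1 hg
      exact k l
  have eP : P = fun V => Ov V ∧ W.Gen V c 1 := by
    refine funext fun V => propext ((hP V).trans (and_congr_right fun hV => ⟨g1 V hV,
      fun k l => ?_⟩))
    obtain ⟨b, hb⟩ := hW.cov V hV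
    exact (Un.mem_iff (one_mul (W.mon b c) ▸ k b hb)).1 (hb _ (hc' l b))
  have gq : ∀ V, W.Gen V (fun j => -(W.v j).v (ip N q)) (ip N q) := fun V b hb => by
    obtain ⟨U, hU, e⟩ := hW.ord b
    refine eout.mono N _ W hW b V _ (ip N F₀ * (U⁻¹ : (KK N)ˣ)) W.aa hb
      (Lc.of_mem (hW.pol b q)) (Lc.of_mem (mul_mem (hW.pol b _) hU.2)) ?_ b hb
    rw [← mul_assoc, ← map_mul, e, mul_right_comm, Units.mul_inv, one_mul]
  have gi := fun V k => B.gen_inv V _ _ (B.gen_pow V _ _ k (gq V))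
  have cn : ∀ (k : ℕ) g, ip N q ^ k * g * (ip N q ^ k)⁻¹ = g := fun k g => by
    rw [mul_right_comm, mul_inv_cancel₀ (pow_ne_zero _ q0), one_mul]
  have gF : ∀ V, W.Gen V (fun j => -(W.v j).v Φ) Φ := by
    have k := fun V => B.gen_mul V _ _ _ _ (B.gen_f V) (gi V (m + 1))
    rw [eh, cn] at k
    exact fun V => B.gen_congr V _ _ _ (fun j _ => by
      rw [((B.gen_v j _ _).1 (k _)).2, neg_neg]) (k V)
  refine ⟨res W c 1 hc one_ne_zero Φ, eP ▸ okr hW B nb F0 gF fun j hj => ?_,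
    eP ▸ stR_res hxs hA hW hS hc hc' g1 Φ, fun i => ?_⟩
  · have hj' : P (W.v j).O := eP ▸ ⟨B.ov_v j, (B.gen_v _ _ _).2 ⟨one_ne_zero, hj⟩⟩
    have b1 := (hF _ hj').resolve_left F0
    have b2 := (hn _ hj').resolve_left (div_ne_zero (pow_ne_zero _ F0) q0)
    have b3 := ((B.gen_v j _ _).1 (B.gen_f _)).2
    have b4 := hW.pos j
    rw [(W.v j).div (pow_ne_zero _ F0) q0, DV.pow] at b2
    rw [eh, (W.v j).mul _ _ (pow_ne_zero _ q0) F0, DV.pow, Pi.neg_apply, neg_neg, Mod.aa] at b3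
    by_contra k
    have b5 : (W.v j).v Φ = 0 := by omega
    rw [b5] at b2 b3
    have := mul_nonpos_of_nonneg_of_nonpos (Int.natCast_nonneg (m + 1))
      (show (W.v j).v (ip N q) ≤ 0 by omega)
    omega
  obtain ⟨d, a3, a4⟩ := hT (some i)
  refine ⟨fun j => (d + -(((m + 1) * r i) • fun j => -(W.v j).v (ip N q))) j.1,
    fun g hg V hV => oc_of B ?_, fun V hV => ?_⟩
  · rw [← cn ((m + 1) * r i) g]
    exact B.oc_mul V _ _ _ _ (a3 _ (mem_image_of_mem _ hg) V ((hP V).1 hV).1)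
      (B.gen_oc V _ _ (gi V _))
  · obtain ⟨_, hg, u⟩ := a4 V ((hP V).1 hV).1
    obtain ⟨g, hg', rfl⟩ := mem_image.1 hg
    exact ⟨g, hg', (gen_iff B ((congrFun eP V).mp hV).2 _ _).2
      (cn _ g ▸ B.gen_mul V _ _ _ _ u (gi V _))⟩

end Pool.Agent.MP_5d9b3c_ag.O3R
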